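import Mathlib
import Pool.Agent.Lib.helper22.ReB

set_option autoImplicit false

namespace Pool.Agent.Results.MP_b4b0f8_co.Full

open Classical SimpleGraph Finset Pool.Agent.Lib.H22Re

/-- The edge set `E` spans a 2-regular graph: every vertex incident to an edge of `E` lies on
exactly two edges of `E`. -/
def TwoRegular {V : Type} (E : Set (Sym2 V)) : Prop :=
  ∀ w : V, (∃ e ∈ E, w ∈ e) → {e | e ∈ E ∧ w ∈ e}.ncard = 2

/-- The edges of `G` are partitioned into at most `m` parts (the colour classes of `c`), each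
2-regular or a single edge. -/
def Decomp {V : Type} (G : SimpleGraph V) (m : ℕ) : Prop :=
  ∃ c : Sym2 V → ℕ, (∀ e ∈ G.edgeSet, c e < m) ∧ ∀ i : ℕ,
    TwoRegular {e | e ∈ G.edgeSet ∧ c e = i} ∨ {e | e ∈ G.edgeSet ∧ c e = i}.ncard = 1

lemma dg_eq {V : Type} [Fintype V] (G : SimpleGraph V) (v : V) :
    dg G v = (G.neighborSet v).ncard := by
  rw [dg, ← Set.ncard_coe_finset]
  congr 1
  ext u
  simp

lemma dg_filter {V : Type} [Fintype V] (G : SimpleGraph V) (J : Finset (Sym2 V))
    (hJ : ∀ e ∈ J, e ∈ G.edgeSet) (v : V) :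
    dg (G.deleteEdges (J : Set (Sym2 V))) v + (J.filter (v ∈ ·)).card = dg G v := by
  have e1 : (J.filter (v ∈ ·)).card = (univ.filter (fun u => s(v, u) ∈ J)).card := by
    symm
    refine card_bij (fun u _ => s(v, u)) ?_ ?_ ?_
    · intro u hu
      exact mem_filter.2 ⟨(mem_filter.1 hu).2, by simp⟩
    · intro u _ u' _ h
      exact Sym2.congr_right.1 h
    · intro e he
      obtain ⟨u, rfl⟩ := Sym2.mem_iff_exists.1 (mem_filter.1 he).2
      exact ⟨u, mem_filter.2 ⟨mem_univ _, (mem_filter.1 he).1⟩, rfl⟩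
  rw [e1, dg, dg, ← card_union_of_disjoint]
  · congr 1
    ext u
    simp only [mem_union, mem_filter, mem_univ, true_and, deleteEdges_adj, mem_coe]
    constructor
    · rintro (h | h)
      · exact h.1
      · exact hJ _ h
    · intro h
      by_cases h' : s(v, u) ∈ J
      · exact Or.inr h'
      · exact Or.inl ⟨h, h'⟩
  · rw [Finset.disjoint_left]
    intro u h1 h2
    simp only [mem_filter, deleteEdges_adj, mem_coe] at h1 h2
    exact h1.2.2 h2.2

lemma main {V : Type} [Fintype V] (k n : ℕ) (hn : Fintype.card V = n) (v0 : V) (G : SimpleGraph V)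
    (hG : ∀ v, (G.neighborSet v).ncard = 2 * k + 1) : Decomp G (n - 1) := by
  have hd : ∀ v, dg G v = 2 * k + 1 := fun v => by rw [dg_eq, hG]
  have hcast : ∀ m : ℕ, ((2 * m + 1 : ℕ) : ZMod 2) = 1 := by
    intro m
    have : (2 : ZMod 2) = 0 := by decide
    push_cast
    rw [this]; simp
  have h0 : ind (univ : Finset V) ∈ Bd G := by
    have h1 := par_mem (H := G) (univ.filter (· ∈ G.edgeSet)) (fun e he => (mem_filter.1 he).2)
    have h2 : par (univ.filter (· ∈ G.edgeSet)) = ind (univ : Finset V) := by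
      ext v
      have h3 := dg_filter G (univ.filter (· ∈ G.edgeSet)) (fun e he => (mem_filter.1 he).2) v
      have h4 : dg (G.deleteEdges ((univ.filter (· ∈ G.edgeSet) : Finset _) : Set _)) v = 0 := by
        rw [dg_eq, Set.ncard_eq_zero (Set.toFinite _), Set.eq_empty_iff_forall_notMem]
        intro u h
        rw [mem_neighborSet, deleteEdges_adj] at h
        exact h.2 (mem_coe.2 (mem_filter.2 ⟨mem_univ _, h.1⟩))
      rw [h4, zero_add, hd] at h3
      simp only [par, ind, mem_univ, if_true]
      rw [← hcast k, ← h3]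
    rwa [h2] at h1
  obtain ⟨J, hJ, hc, hp⟩ := J2 k univ G (fun u _ _ => mem_univ u) h0 ⟨v0, mem_univ _⟩
    (fun v _ => (hd v).ge)
  rw [card_univ, hn] at hc
  have hodd : ∀ v, (J.filter (v ∈ ·)).card % 2 = 1 := by
    intro v
    have := congrFun hp v
    simp only [par, ind, mem_univ, if_true] at this
    exact Nat.odd_iff.1 (ZMod.natCast_eq_one_iff_odd.1 this)
  obtain ⟨c, hc1, hc2⟩ := petersen (G.deleteEdges (J : Set _)) k (fun v => by
      have := dg_filter G J hJ v
      have := hd v
      have := hodd v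
      rw [Nat.even_iff]; omega) (fun v => by
      have := dg_filter G J hJ v
      have := hd v
      have := hodd v
      omega)
  refine ⟨fun e => if h : e ∈ J then k + (J.equivFin ⟨e, h⟩ : ℕ) else c e, ?_, fun i => ?_⟩
  · intro e he
    by_cases h : e ∈ J
    · simp only [h, dif_pos]
      have := (J.equivFin ⟨e, h⟩).2
      omega
    · simp only [h, dif_neg, not_false_eq_true]
      have := hc1 e (by rw [edgeSet_deleteEdges]; exact ⟨he, h⟩)
      omega
  · by_cases hi : i < k
    · left
      intro w hw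
      have e : {e | e ∈ {e | e ∈ G.edgeSet ∧
          (if h : e ∈ J then k + (J.equivFin ⟨e, h⟩ : ℕ) else c e) = i} ∧ w ∈ e} =
          {e | e ∈ (G.deleteEdges (J : Set _)).edgeSet ∧ c e = i ∧ w ∈ e} := by
        ext e
        simp only [Set.mem_setOf_eq, edgeSet_deleteEdges, Set.mem_diff, mem_coe]
        by_cases h : e ∈ J
        · simp only [h, dif_pos]
          constructor
          · rintro ⟨⟨-, h'⟩, -⟩; omega
          · rintro ⟨⟨-, h'⟩, -⟩; exact absurd trivial h'
        · simp only [h, dif_neg, not_false_eq_true]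
          tauto
      rcases hc2 i w with h | h
      · rw [← e, Set.ncard_eq_zero (Set.toFinite _)] at h
        obtain ⟨f, hf1, hf2⟩ := hw
        exact absurd (h ▸ (⟨hf1, hf2⟩ : f ∈ {e | e ∈ {e | e ∈ G.edgeSet ∧
          (if h : e ∈ J then k + (J.equivFin ⟨e, h⟩ : ℕ) else c e) = i} ∧ w ∈ e}))
          (Set.notMem_empty f)
      · rw [← e] at h; exact h
    · have hs : {e | e ∈ G.edgeSet ∧
          (if h : e ∈ J then k + (J.equivFin ⟨e, h⟩ : ℕ) else c e) = i}.Subsingleton := by
        have aux : ∀ e ∈ G.edgeSet,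
            (if h : e ∈ J then k + (J.equivFin ⟨e, h⟩ : ℕ) else c e) = i → e ∈ J := by
          intro e he h1
          by_contra h
          rw [dif_neg h] at h1
          have := hc1 e (by rw [edgeSet_deleteEdges]; exact ⟨he, h⟩)
          omega
        rintro e ⟨he, h1⟩ f ⟨hf, h2⟩
        have he' := aux e he h1
        have hf' := aux f hf h2
        rw [dif_pos he'] at h1
        rw [dif_pos hf'] at h2
        have := J.equivFin.injective (Fin.ext (by omega) : J.equivFin ⟨e, he'⟩ = J.equivFin ⟨f, hf'⟩)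
        exact congrArg Subtype.val this
      rcases hs.eq_empty_or_singleton with h | ⟨x, h⟩
      · left
        rintro w ⟨e, he, -⟩
        exact absurd (h ▸ he) (Set.notMem_empty e)
      · right
        exact (congrArg Set.ncard h).trans (Set.ncard_singleton x)

theorem result (k n : ℕ) (hn : 1 ≤ n) (G : SimpleGraph (Fin n))
    (hG : ∀ v, (G.neighborSet v).ncard = 2 * k + 1) : Decomp G (n - 1) :=
  main k n (Fintype.card_fin n) ⟨0, hn⟩ G hG

end Pool.Agent.Results.MP_b4b0f8_co.Full
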